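import Mathlib

set_option autoImplicit false

namespace Pool.Agent.Results.MP_395df9_lc.StickNoWeaklyUniversal

open Cardinal Ordinal Set

/-- The set of all countable ordinals, i.e. the ordinal `ω₁`, as a (well-ordered) type. -/
abbrev Omega1 : Type := (ω_ 1 : Ordinal.{0}).ToType

/-- `[ω₁]²`: the unordered pairs of distinct countable ordinals. -/
abbrev Pairs : Type := {z : Sym2 Omega1 // ¬ z.IsDiag}

/-- The unordered pair `{α, β}` of two distinct countable ordinals. -/
def pair (α β : Omega1) (hne : α ≠ β) : Pairs :=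
  ⟨s(α, β), fun h => hne (Sym2.mk_isDiag_iff.1 h)⟩

/-- `U : [ω₁]² → ω` is `(1, κ)`-weakly universal: for every `F : [ω₁]² → ω` there are an
injective `h : ω₁ → ω₁` and `e : ω → ω` with `|e⁻¹(n)| < κ` for all `n`, such that
`F {α, β} = e (U {h α, h β})` for all distinct `α, β`. -/
def WeaklyUniversal (κ : Cardinal.{0}) (U : Pairs → ℕ) : Prop :=
  ∀ F : Pairs → ℕ, ∃ (h : Omega1 → Omega1) (hinj : Function.Injective h) (e : ℕ → ℕ),
    (∀ n : ℕ, #(e ⁻¹' {n} : Set ℕ) < κ) ∧
    ∀ (α β : Omega1) (hne : α ≠ β),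
      F (pair α β hne) = e (U (pair (h α) (h β) (hinj.ne hne)))

/-- The stick principle: there is a family of `ℵ₁` many countably infinite subsets of `ω₁` such
that every uncountable subset of `ω₁` contains a member of the family. -/
def StickPrinciple : Prop :=
  ∃ S : Set (Set Omega1), #S = ℵ₁ ∧ (∀ s ∈ S, s.Countable ∧ s.Infinite) ∧
    ∀ X : Set Omega1, ¬ X.Countable → ∃ s ∈ S, s ⊆ X

theorem mk_Omega1 : #Omega1 = ℵ₁ := by
  rw [Cardinal.mk_toType, Ordinal.card_omega]

theorem countable_Iio (a : Omega1) : (Set.Iio a).Countable := by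
  have h : #(Set.Iio a) < #Omega1 := by
    apply Cardinal.mk_Iio_lt
    rw [Ordinal.type_toType, mk_Omega1, Cardinal.ord_aleph]
  rw [mk_Omega1] at h
  have h2 : #(Set.Iio a) ≤ ℵ₀ := by
    have : (ℵ₁ : Cardinal.{0}) = Order.succ ℵ₀ := by
      rw [← Cardinal.succ_aleph0]
    rw [this, Order.lt_succ_iff] at h
    exact h
  exact Cardinal.le_aleph0_iff_set_countable.1 h2

theorem countable_Iic (a : Omega1) : (Set.Iic a).Countable := by
  rw [← Set.Iio_insert]
  exact (countable_Iio a).insert a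

/-- A pairing bijection `ω₁ × ω₁ ≃ ω₁`. -/
theorem exists_pairing : Nonempty (Omega1 × Omega1 ≃ Omega1) := by
  rw [← Cardinal.eq, ← Cardinal.mul_def, mk_Omega1]
  exact Cardinal.mul_eq_self (Cardinal.aleph0_le_aleph 1)

theorem not_countable_of_injOn (φ : Omega1 × Omega1 ≃ Omega1) (h : Omega1 → Omega1) :
    ¬ (φ '' {p : Omega1 × Omega1 | p.2 = h p.1}).Countable := by
  intro hc
  have h1 : ({p : Omega1 × Omega1 | p.2 = h p.1}).Countable :=
    Set.countable_of_injective_of_countable_image φ.injective.injOn hc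
  have h2 : (Prod.fst '' {p : Omega1 × Omega1 | p.2 = h p.1}).Countable := h1.image _
  have h3 : Prod.fst '' {p : Omega1 × Omega1 | p.2 = h p.1} = Set.univ := by
    ext α
    simp
  rw [h3] at h2
  have h4 : #Omega1 ≤ ℵ₀ := by
    rw [← Cardinal.mk_univ]
    exact Cardinal.le_aleph0_iff_set_countable.2 h2
  rw [mk_Omega1] at h4
  exact absurd h4 (not_le.2 Cardinal.aleph0_lt_aleph_one)

/-- For each `ξ` and each countable `D` there is `β` above `D` with first coordinate `ξ`. -/
theorem exists_above (φ : Omega1 × Omega1 ≃ Omega1) (ξ : Omega1) (D : Set Omega1)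
    (hD : D.Countable) : ∃ β : Omega1, (φ.symm β).1 = ξ ∧ ∀ α ∈ D, α < β := by
  by_contra hcon
  push Not at hcon
  have hsub : Set.range (fun η : Omega1 => φ (ξ, η)) ⊆ ⋃ α ∈ D, Set.Iic α := by
    rintro β ⟨η, rfl⟩
    obtain ⟨α, hα, hle⟩ := hcon (φ (ξ, η)) (by simp)
    exact Set.mem_biUnion hα hle
  have hcount : (⋃ α ∈ D, Set.Iic α).Countable :=
    hD.biUnion fun α _ => countable_Iic α
  have h1 := hcount.mono hsub
  have hinj : Function.Injective (fun η : Omega1 => φ (ξ, η)) := by
    intro a b hab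
    simpa using hab
  have h4 : #Omega1 ≤ ℵ₀ := by
    rw [← Cardinal.mk_range_eq _ hinj]
    exact Cardinal.le_aleph0_iff_set_countable.2 h1
  rw [mk_Omega1] at h4
  exact absurd h4 (not_le.2 Cardinal.aleph0_lt_aleph_one)

/-- The counting step: if the first projection of `s` is infinite, then some two-valued function
on it is not captured by any `γ` and any finite set `G`. -/
theorem exists_uncaptured (hc : ℵ₁ < (𝔠 : Cardinal.{0})) (V : Omega1 → Omega1 × Omega1 → ℕ)
    (s : Set (Omega1 × Omega1)) (hinf : (Prod.fst '' s).Infinite) :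
    ∃ f : Omega1 → Bool, ∀ (γ : Omega1) (G : Finset ℕ),
      ¬ ∀ p ∈ s, f p.1 = decide (V γ p ∈ G) := by
  classical
  by_contra hcon
  push Not at hcon
  choose γ G hG using hcon
  -- restrict to functions supported on the projection
  let D : Set Omega1 := Prod.fst '' s
  let ext : (D → Bool) → (Omega1 → Bool) := fun t α => if h : α ∈ D then t ⟨α, h⟩ else false
  let Φ : (D → Bool) → Omega1 × Finset ℕ := fun t => (γ (ext t), G (ext t))
  have hΦ : Function.Injective Φ := by
    intro t t' htt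
    have h1 : γ (ext t) = γ (ext t') := (Prod.ext_iff.1 htt).1
    have h2 : G (ext t) = G (ext t') := (Prod.ext_iff.1 htt).2
    funext ⟨α, hα⟩
    obtain ⟨p, hp, rfl⟩ := hα
    have e1 := hG (ext t) p hp
    have e2 := hG (ext t') p hp
    rw [h1, h2, ← e2] at e1
    have hmem : p.1 ∈ D := ⟨p, hp, rfl⟩
    simpa [ext, hmem] using e1
  have hcard : #(D → Bool) ≤ #(Omega1 × Finset ℕ) := Cardinal.mk_le_of_injective hΦ
  have : Infinite D := hinf.to_subtype
  have h1 : 𝔠 ≤ #(D → Bool) := by
    rw [← Cardinal.power_def, Cardinal.mk_bool, ← Cardinal.two_power_aleph0]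
    exact Cardinal.power_le_power_left two_ne_zero (Cardinal.aleph0_le_mk D)
  have h2 : #(Omega1 × Finset ℕ) = ℵ₁ := by
    rw [← Cardinal.mul_def, mk_Omega1, Cardinal.mk_finset_of_infinite, Cardinal.mk_nat]
    exact Cardinal.mul_eq_left (Cardinal.aleph0_le_aleph 1) (Cardinal.aleph0_le_aleph 1)
      Cardinal.aleph0_ne_zero
  exact absurd (h1.trans (hcard.trans h2.le)) (not_le.2 hc)

/-- **Full answer to Q1.** If the stick principle holds and `𝔠 > ℵ₁`, then there is no
`(1, ω)`-weakly universal function `U : [ω₁]² → ω`. -/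
theorem result (hstick : StickPrinciple) (hc : ℵ₁ < (𝔠 : Cardinal.{0})) :
    ¬ ∃ U : Pairs → ℕ, WeaklyUniversal ℵ₀ U := by
  classical
  rintro ⟨U, hU⟩
  obtain ⟨S, hScard, hS, hstick⟩ := hstick
  obtain ⟨φ⟩ := exists_pairing
  -- enumerate the stick family by `ω₁`
  obtain ⟨g⟩ : Nonempty (Omega1 ≃ S) := by
    rw [← Cardinal.eq, hScard, mk_Omega1]
  -- transfer the members to sets of pairs
  let σ : Omega1 → Set (Omega1 × Omega1) := fun ξ => φ ⁻¹' (g ξ : Set Omega1)
  let V : Omega1 → Omega1 × Omega1 → ℕ := fun γ p =>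
    if h : p.2 ≠ γ then U (pair p.2 γ h) else 0
  have hf : ∀ ξ : Omega1, ∃ f : Omega1 → Bool, (Prod.fst '' σ ξ).Infinite →
      ∀ (γ : Omega1) (G : Finset ℕ), ¬ ∀ p ∈ σ ξ, f p.1 = decide (V γ p ∈ G) := by
    intro ξ
    by_cases hinf : (Prod.fst '' σ ξ).Infinite
    · obtain ⟨f, hf⟩ := exists_uncaptured hc V (σ ξ) hinf
      exact ⟨f, fun _ => hf⟩
    · exact ⟨fun _ => false, fun h => absurd h hinf⟩
  choose f hf using hf
  -- the function which defeats `U`
  let F : Pairs → ℕ := fun z => if f (φ.symm z.1.sup).1 z.1.inf = true then 1 else 0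
  have hF : ∀ (α β : Omega1) (hlt : α < β),
      F (pair α β hlt.ne) = if f (φ.symm β).1 α = true then 1 else 0 := by
    intro α β hlt
    have h1 : (pair α β hlt.ne).1.sup = β := by
      simp [pair, hlt.le]
    have h2 : (pair α β hlt.ne).1.inf = α := by
      simp [pair, hlt.le]
    simp only [F, h1, h2]
  obtain ⟨h, hinj, e, he, heq⟩ := hU F
  -- a member of the stick family inside the graph of `h`
  obtain ⟨s, hsS, hsub⟩ := hstick _ (not_countable_of_injOn φ h)
  obtain ⟨ξ, hξ⟩ : ∃ ξ, (g ξ : Set Omega1) = s := ⟨g.symm ⟨s, hsS⟩, by simp⟩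
  have hgraph : ∀ p ∈ σ ξ, p.2 = h p.1 := by
    intro p hp
    have hp' : φ p ∈ s := by
      have : φ p ∈ (g ξ : Set Omega1) := hp
      rwa [hξ] at this
    obtain ⟨q, hq, hqp⟩ := hsub hp'
    rw [← φ.injective hqp]
    exact hq
  have hσinf : (σ ξ).Infinite := by
    have : (φ '' σ ξ).Infinite := by
      rw [Set.image_preimage_eq _ φ.surjective, hξ]
      exact (hS s hsS).2
    exact this.of_image _
  have hσcount : (σ ξ).Countable := by
    have : (φ '' σ ξ).Countable := by
      rw [Set.image_preimage_eq _ φ.surjective, hξ]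
      exact (hS s hsS).1
    exact Set.countable_of_injective_of_countable_image φ.injective.injOn this
  have hDinf : (Prod.fst '' σ ξ).Infinite := by
    apply hσinf.image
    intro p hp q hq hpq
    have h1 := hgraph p hp
    have h2 := hgraph q hq
    ext1
    · exact hpq
    · rw [h1, h2, hpq]
  obtain ⟨β, hβ1, hβ2⟩ := exists_above φ ξ (Prod.fst '' σ ξ) (hσcount.image _)
  have hfin : (e ⁻¹' {1}).Finite := Cardinal.lt_aleph0_iff_set_finite.1 (he 1)
  refine hf ξ hDinf (h β) hfin.toFinset ?_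
  intro p hp
  have hlt : p.1 < β := hβ2 p.1 ⟨p, hp, rfl⟩
  have hne : p.2 ≠ h β := by
    rw [hgraph p hp]
    exact hinj.ne hlt.ne
  have hV : V (h β) p = U (pair (h p.1) (h β) (hinj.ne hlt.ne)) := by
    simp only [V, dif_pos hne]
    congr 1
    simp only [pair, hgraph p hp]
  have hmain := heq p.1 β hlt.ne
  rw [hF p.1 β hlt, hβ1, ← hV] at hmain
  have hiff : f ξ p.1 = true ↔ V (h β) p ∈ hfin.toFinset := by
    rw [Set.Finite.mem_toFinset, Set.mem_preimage, Set.mem_singleton_iff, ← hmain]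
    by_cases hb : f ξ p.1 = true
    · simp [hb]
    · simp [hb]
  by_cases hb : f ξ p.1 = true
  · rw [hb, eq_comm, decide_eq_true_iff]
    exact hiff.1 hb
  · rw [Bool.not_eq_true] at hb
    rw [hb, eq_comm, decide_eq_false_iff_not]
    intro hmem
    rw [hiff.2 hmem] at hb
    exact absurd hb (by simp)

end Pool.Agent.Results.MP_395df9_lc.StickNoWeaklyUniversal
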